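import Mathlib
import Pool.Agent.P.MP_6efe58_an.Heat

/-!
Every countably infinite group without property (T) has, for every normalized 2-cocycle, the weak
heat property: some element of the reduced twisted group C*-algebra outside `CF` is mapped into
`CF` by the heat semigroup of a negative definite function (at every positive time).

The space `ℓ²(G)` is a complex Hilbert space `H` with a Hilbert basis `δ` indexed by `G`, and
`Λ g` is the bounded operator with `Λ g (δ h) = σ g h • δ (g * h)`.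
-/

set_option autoImplicit false

open scoped ComplexConjugate InnerProductSpace

namespace Pool.Agent.Results.MP_6efe58_an.WeakHeat

open Pool.Agent.P.MP_6efe58_an

section
variable {G : Type} [Group G]

/-- Normalized circle-valued 2-cocycles. -/
def IsCocycle (σ : G → G → Circle) : Prop :=
  (∀ g h k, σ g h * σ (g * h) k = σ h k * σ g (h * k)) ∧ ∀ g, σ g 1 = 1 ∧ σ 1 g = 1

/-- Negative definite functions `d : G → [0, ∞)` with `d(e) = 0`. -/
def IsND0 (d : G → ℝ) : Prop :=
  (∀ g, 0 ≤ d g) ∧ d 1 = 0 ∧ (∀ g, d g⁻¹ = d g) ∧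
    ∀ (n : ℕ) (g : Fin n → G) (b : Fin n → ℂ), ∑ i, b i = 0 →
      (∑ i, ∑ j, conj (b i) * b j * (d ((g i)⁻¹ * g j) : ℂ)).re ≤ 0

/-- Property (T): every such negative definite function is bounded. -/
def HasPropertyT (G : Type) [Group G] : Prop :=
  ∀ d : G → ℝ, IsND0 d → BddAbove (Set.range d)

lemma IsND0.le {d : G → ℝ} (hd : IsND0 d) (f g : G) : d g ≤ 2 * d f⁻¹ + 2 * d (f * g) := by
  obtain ⟨_, h1, h2, h3⟩ := hd
  have h4 := h3 3 ![f, 1, f * g] ![1, -2, 1] (by simp [Fin.sum_univ_three]; norm_num)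
  have h5 : d (g⁻¹ * f⁻¹) = d (f * g) := by rw [← mul_inv_rev, h2]
  simp [Fin.sum_univ_three, h1, h2] at h4
  rw [h2]
  linarith

end

section
variable {ι B : Type} [NormedAddCommGroup B] [NormedSpace ℂ B]

/-- The norm closure of the span of a family; for `u = Λ` the reduced twisted C*-algebra. -/
def Cr (u : ι → B) : Set B := closure (Submodule.span ℂ (Set.range u) : Set B)

/-- The closure of the span of a family of operators in the weak operator topology; for `u = Λ`
the twisted group von Neumann algebra. -/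
noncomputable def vN (u : ι → B →L[ℂ] B) : Submodule ℂ (B →L[ℂ] B) :=
  ((Submodule.span ℂ (Set.range u)).map
    (ContinuousLinearMap.WOTofCLM (E := B) (F := B)).toLinearMap).topologicalClosure.comap
    (ContinuousLinearMap.WOTofCLM (E := B) (F := B)).toLinearMap

/-- `y` is the value at `x` of every bounded linear map on `V` that multiplies each `u g` by
`m g`. -/
def IsImage (u : ι → B) (V : Submodule ℂ B) (m : ι → ℂ) (x y : B) : Prop :=
  ∀ M : V →L[ℂ] V, (∀ (g : ι) (v : V), (v : B) = u g → (M v : B) = m g • u g) →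
    ∀ v : V, (v : B) = x → (M v : B) = y

lemma mem_vN {u : ι → B →L[ℂ] B} {x : B →L[ℂ] B} (hx : x ∈ Cr u) : x ∈ vN u :=
  image_closure_subset_closure_image ContinuousLinearMap.WOTofCLM.continuous ⟨x, hx, rfl⟩

end

section
variable {G H : Type} [Group G] [NormedAddCommGroup H] [InnerProductSpace ℂ H]

/-- The Fourier coefficients: the coordinates of `x δ_e`. -/
noncomputable def hat (δ : HilbertBasis G ℂ H) (x : H →L[ℂ] H) (g : G) : ℂ := ⟪δ g, x (δ 1)⟫_ℂ

/-- The elements of the reduced C*-algebra whose Fourier series converges in operator norm as an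
unordered sum. -/
def CF (δ : HilbertBasis G ℂ H) (Λ : G → H →L[ℂ] H) : Set (H →L[ℂ] H) :=
  {x | x ∈ Cr Λ ∧ Summable (fun g => hat δ x g • Λ g)}

omit [Group G] in
lemma ext_basis (δ : HilbertBasis G ℂ H) {A B : H →L[ℂ] H} (h : ∀ g, A (δ g) = B (δ g)) :
    A = B :=
  ContinuousLinearMap.ext_on (s := Set.range δ)
    (Submodule.dense_iff_topologicalClosure_eq_top.2 δ.dense_span)
    (by rintro _ ⟨g, rfl⟩; exact h g)

/-- The twisted regular representation as an abstract system. -/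
noncomputable def sys [CompleteSpace H] {σ : G → G → Circle} (hσ : IsCocycle σ)
    (δ : HilbertBasis G ℂ H) (Λ : G → H →L[ℂ] H)
    (hΛ : ∀ g h, Λ g (δ h) = (σ g h : ℂ) • δ (g * h)) : Sys G H :=
  have hmul : ∀ g h, Λ g * Λ h = (σ g h : ℂ) • Λ (g * h) := fun g h =>
    ext_basis δ fun k => by
      have h2 := congrArg (fun z : Circle => (z : ℂ)) (hσ.1 g h k)
      simp only [Circle.coe_mul] at h2
      rw [mul_apply_eq_comp, hΛ, map_smul, hΛ, _root_.smul_apply, hΛ, smul_smul, smul_smul, h2,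
        mul_assoc]
  have hone : Λ 1 = 1 := ext_basis δ fun k => by simp [hΛ, (hσ.2 k).2]
  have hsu : ∀ g, star (Λ g) * Λ g = 1 := fun g =>
    ext_basis δ fun h => δ.repr.injective (lp.ext (funext fun k => by
      classical
      rw [δ.repr_apply_apply, δ.repr_apply_apply, mul_apply_eq_comp,
        ContinuousLinearMap.star_eq_adjoint, ContinuousLinearMap.adjoint_inner_right, hΛ, hΛ,
        inner_smul_left, inner_smul_right, one_apply_eq_self,
        orthonormal_iff_ite.1 δ.orthonormal, orthonormal_iff_ite.1 δ.orthonormal]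
      by_cases hk : k = h
      · subst hk
        simp [Complex.conj_mul']
      · simp [hk]))
  { u := Λ
    Ω := δ 1
    c := fun g h => σ g h
    norm_c := fun _ _ => Circle.norm_coe _
    u_mul := hmul
    u_one := hone
    hsu := hsu
    hus := fun g => by
      have h1 : Λ g * ((σ g g⁻¹ : ℂ)⁻¹ • Λ g⁻¹) = 1 := by
        rw [mul_smul_comm, hmul, mul_inv_cancel, hone, smul_smul,
          inv_mul_cancel₀ (Circle.coe_ne_zero _), one_smul]
      have h2 : star (Λ g) = (σ g g⁻¹ : ℂ)⁻¹ • Λ g⁻¹ := by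
        rw [← mul_one (star (Λ g)), ← h1, ← mul_assoc, hsu, one_mul]
      rw [h2, h1]
    orth := by simpa [hΛ, (hσ.2 _).1] using δ.orthonormal }

lemma coef_eq [CompleteSpace H] {σ : G → G → Circle} (hσ : IsCocycle σ)
    (δ : HilbertBasis G ℂ H) (Λ : G → H →L[ℂ] H)
    (hΛ : ∀ g h, Λ g (δ h) = (σ g h : ℂ) • δ (g * h)) (g : G) (x : H →L[ℂ] H) :
    (sys hσ δ Λ hΛ).coef g x = hat δ x g := by
  rw [Sys.coef_apply]
  change ⟪Λ g (δ 1), x (δ 1)⟫_ℂ = _
  simp [hΛ, (hσ.2 _).1, hat]

end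

theorem result {G : Type} [Group G] [Countable G] [Infinite G] (hG : ¬ HasPropertyT G)
    (σ : G → G → Circle) (hσ : IsCocycle σ)
    {H : Type} [NormedAddCommGroup H] [InnerProductSpace ℂ H] [CompleteSpace H]
    (δ : HilbertBasis G ℂ H) (Λ : G → H →L[ℂ] H)
    (hΛ : ∀ g h, Λ g (δ h) = (σ g h : ℂ) • δ (g * h)) :
    ∃ d : G → ℝ, IsND0 d ∧ ∃ x₀ ∈ vN Λ, x₀ ∈ Cr Λ ∧ x₀ ∉ CF δ Λ ∧
      ∀ t : ℝ, 0 < t → ∃ y ∈ CF δ Λ,
        (∀ g, hat δ y g = (Real.exp (-t * d g) : ℂ) * hat δ x₀ g) ∧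
        IsImage Λ (vN Λ) (fun g => (Real.exp (-t * d g) : ℂ)) x₀ y := by
  unfold HasPropertyT at hG
  push Not at hG
  obtain ⟨d, hd, hunb⟩ := hG
  obtain ⟨x₀, h1, h2, h3⟩ := (sys hσ δ Λ hΛ).heat d hd.le hunb (vN Λ) (fun x hx => mem_vN hx)
  simp only [coef_eq hσ δ Λ hΛ] at h2 h3
  refine ⟨d, hd, x₀, x₀.2, h1, fun h => h2 h.2, fun t ht => ?_⟩
  obtain ⟨y, k1, k2, k3, k4⟩ := h3 t ht
  refine ⟨y, ⟨k1, k2⟩, k3, fun M hM v hv => ?_⟩
  rw [show v = x₀ from Subtype.ext hv]
  exact k4 M hM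

end Pool.Agent.Results.MP_6efe58_an.WeakHeat
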